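import Mathlib

set_option autoImplicit false

/-!
Three pairwise nonadjacent hubs and three cliques of even order `n`; clique `j` is completely
joined to the two hubs other than `j`. This graph has no odd edge colouring with three colours.
-/

namespace Pool.Agent.H956Z.OddCol

open Finset Sum

abbrev Vx (n : ℕ) := Fin 3 ⊕ (Fin 3 × Fin n)

def adj {n : ℕ} : Vx n → Vx n → Prop
  | inl _, inl _ => False
  | inl h, inr p => h ≠ p.1
  | inr p, inl h => h ≠ p.1
  | inr p, inr q => p.1 = q.1 ∧ p.2 ≠ q.2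

def G (n : ℕ) : SimpleGraph (Vx n) where
  Adj := adj
  symm := by
    constructor
    rintro (h | p) (k | q) hh
    · exact hh
    · exact hh
    · exact hh
    · exact ⟨hh.1.symm, hh.2.symm⟩
  loopless := by
    constructor
    rintro (h | p) hh
    · exact hh
    · exact hh.2 rfl

@[simp] lemma adj_ll {n : ℕ} (h k : Fin 3) : ¬ (G n).Adj (inl h) (inl k) := fun x => x
@[simp] lemma adj_lr {n : ℕ} (h : Fin 3) (p : Fin 3 × Fin n) :
    (G n).Adj (inl h) (inr p) ↔ h ≠ p.1 := Iff.rfl
@[simp] lemma adj_rl {n : ℕ} (h : Fin 3) (p : Fin 3 × Fin n) :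
    (G n).Adj (inr p) (inl h) ↔ h ≠ p.1 := Iff.rfl
@[simp] lemma adj_rr {n : ℕ} (p q : Fin 3 × Fin n) :
    (G n).Adj (inr p) (inr q) ↔ p.1 = q.1 ∧ p.2 ≠ q.2 := Iff.rfl

lemma third (j l : Fin 3) : ∃ h : Fin 3, h ≠ j ∧ h ≠ l := by
  revert j l; decide

lemma other (l : Fin 3) : ∃ h : Fin 3, h ≠ l := by
  revert l; decide

lemma two_others (j : Fin 3) : ∑ h : Fin 3, (if h = j then 0 else 1) = 2 := by
  revert j; decide

lemma free_colour (j : Fin 3) (m : Fin 3 → Fin 3) : ∃ g : Fin 3, ∀ h, h ≠ j → g ≠ m h := by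
  revert j m; decide

lemma conn_induce {n : ℕ} (S : Set (Vx n)) (a0 : Fin n) (l : Fin 3)
    (h1 : ∀ j, inr (j, a0) ∈ S) (h2 : ∀ h, h ≠ l → inl h ∈ S) :
    ((G n).induce S).Connected := by
  have hx : ∀ j, ((G n).induce S).Reachable ⟨inr (l, a0), h1 l⟩ ⟨inr (j, a0), h1 j⟩ := by
    intro j
    obtain ⟨h, hj, hl⟩ := third j l
    have e1 : ((G n).induce S).Adj ⟨inr (l, a0), h1 l⟩ ⟨inl h, h2 h hl⟩ := by
      simpa using hl
    have e2 : ((G n).induce S).Adj ⟨inl h, h2 h hl⟩ ⟨inr (j, a0), h1 j⟩ := by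
      simpa using hj
    exact e1.reachable.trans e2.reachable
  have hall : ∀ v : S, ((G n).induce S).Reachable ⟨inr (l, a0), h1 l⟩ v := by
    rintro ⟨h | ⟨j, a⟩, hv⟩
    · obtain ⟨j, hj⟩ := other h
      have e : ((G n).induce S).Adj ⟨inr (j, a0), h1 j⟩ ⟨inl h, hv⟩ := by
        simpa using hj.symm
      exact (hx j).trans e.reachable
    · by_cases ha : a0 = a
      · subst ha; exact hx j
      · have e : ((G n).induce S).Adj ⟨inr (j, a0), h1 j⟩ ⟨inr (j, a), hv⟩ := by
          simpa using ha
        exact (hx j).trans e.reachable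
  have : Nonempty S := ⟨⟨_, h1 l⟩⟩
  exact ⟨fun u v => (hall u).symm.trans (hall v)⟩

lemma conn {n : ℕ} (hn : 2 ≤ n) : (G n).Connected := by
  have h := conn_induce (n := n) Set.univ ⟨0, by omega⟩ 0 (fun _ => trivial) (fun _ _ => trivial)
  exact (SimpleGraph.Iso.connected_iff (SimpleGraph.induceUnivIso (G n))).mp h

lemma conn_del {n : ℕ} (hn : 2 ≤ n) (v : Vx n) :
    ((G n).induce {w | w ≠ v}).Connected := by
  rcases v with h | ⟨j, a⟩
  · refine conn_induce _ ⟨0, by omega⟩ h (fun _ => by simp) (fun k hk => by simpa using hk)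
  · have : ∃ a0 : Fin n, a0 ≠ a := by
      by_cases h0 : a = ⟨0, by omega⟩
      · exact ⟨⟨1, by omega⟩, by rw [h0]; simp [Fin.ext_iff]⟩
      · exact ⟨_, Ne.symm h0⟩
    obtain ⟨a0, ha0⟩ := this
    refine conn_induce _ a0 0 (fun k => by simp [ha0]) (fun k _ => by simp)

lemma mindeg {n : ℕ} (v : Vx n) : n ≤ ((G n).neighborSet v).ncard := by
  rcases v with h | ⟨j, a⟩
  · obtain ⟨j, hj⟩ := other h
    have hsub : (fun a : Fin n => (inr (j, a) : Vx n)) '' Set.univ ⊆ (G n).neighborSet (inl h) := by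
      rintro _ ⟨a, -, rfl⟩
      simpa using hj.symm
    have := Set.ncard_le_ncard hsub (Set.toFinite _)
    rw [Set.ncard_image_of_injective _ (fun a b hab => by simpa using hab)] at this
    simpa [Set.ncard_univ] using this
  · obtain ⟨h, hj⟩ := other j
    let f : Fin n → Vx n := fun b => if b = a then inl h else inr (j, b)
    have hf : Function.Injective f := by
      intro b b' hb
      simp only [f] at hb
      split_ifs at hb with h1 h2 h2
      · rw [h1, h2]
      · simpa using hb
    have hsub : f '' Set.univ ⊆ (G n).neighborSet (inr (j, a)) := by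
      rintro _ ⟨b, -, rfl⟩
      simp only [f]
      split_ifs with h1
      · simpa using hj
      · simpa using Ne.symm h1
    have := Set.ncard_le_ncard hsub (Set.toFinite _)
    rw [Set.ncard_image_of_injective _ hf] at this
    simpa [Set.ncard_univ] using this

lemma even_double {n : ℕ} (f : Fin n → Fin n → ℕ) (hs : ∀ a b, f a b = f b a)
    (hd : ∀ a, f a a = 0) : Even (∑ a, ∑ b, f a b) := by
  rw [← ZMod.natCast_eq_zero_iff_even, ← Finset.sum_product']
  push_cast
  refine Finset.sum_involution (fun p _ => p.swap) ?_ ?_ ?_ ?_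
  · intro p _
    simp only [Prod.fst_swap, Prod.snd_swap]
    rw [hs p.2 p.1]
    exact CharTwo.add_self_eq_zero _
  · intro p _ hp hsw
    apply hp
    have : p.2 = p.1 := congrArg Prod.fst hsw
    rw [this, hd]; simp
  · intro p _; simp
  · intro p _; simp

open Classical in
noncomputable def ind {n : ℕ} (c : Sym2 (Vx n) → Fin 3) (v w : Vx n) (i : Fin 3) : ℕ :=
  if (G n).Adj v w ∧ c s(v, w) = i then 1 else 0

lemma ind_symm {n : ℕ} (c : Sym2 (Vx n) → Fin 3) (v w : Vx n) (i : Fin 3) :
    ind c v w i = ind c w v i := by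
  unfold ind
  rw [Sym2.eq_swap, (G n).adj_comm]

lemma ind_sum {n : ℕ} (c : Sym2 (Vx n) → Fin 3) {v w : Vx n} (h : (G n).Adj v w) :
    ∑ i, ind c v w i = 1 := by
  unfold ind
  simp [h]

lemma ind_not {n : ℕ} (c : Sym2 (Vx n) → Fin 3) {v w : Vx n} (h : ¬ (G n).Adj v w) (i : Fin 3) :
    ind c v w i = 0 := by
  unfold ind
  simp [h]

noncomputable def cnt {n : ℕ} (c : Sym2 (Vx n) → Fin 3) (v : Vx n) (i : Fin 3) : ℕ :=
  ∑ w, ind c v w i

lemma cnt_eq {n : ℕ} (c : Sym2 (Vx n) → Fin 3) (v : Vx n) (i : Fin 3) :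
    {w | (G n).Adj v w ∧ c s(v, w) = i}.ncard = cnt c v i := by
  classical
  unfold cnt ind
  rw [Finset.sum_boole, Set.ncard_eq_toFinset_card']
  simp only [Set.toFinset_ofPred, Nat.cast_id]

lemma cnt_pos {n : ℕ} (c : Sym2 (Vx n) → Fin 3) {v w : Vx n} (h : (G n).Adj v w) :
    cnt c v (c s(v, w)) ≠ 0 := by
  have h1 : ind c v w (c s(v, w)) = 1 := by unfold ind; simp [h]
  have h2 : ind c v w (c s(v, w)) ≤ cnt c v (c s(v, w)) :=
    Finset.single_le_sum (f := fun w' => ind c v w' (c s(v, w))) (fun _ _ => Nat.zero_le _)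
      (Finset.mem_univ w)
  omega

noncomputable def E {n : ℕ} (c : Sym2 (Vx n) → Fin 3) (h j i : Fin 3) : ℕ :=
  ∑ a : Fin n, ind c (inl h) (inr (j, a)) i

lemma E_self {n : ℕ} (c : Sym2 (Vx n) → Fin 3) (h i : Fin 3) : E c h h i = 0 := by
  unfold E
  exact Finset.sum_eq_zero (fun a _ => ind_not c (by simp) i)

lemma E_sum {n : ℕ} (c : Sym2 (Vx n) → Fin 3) {h j : Fin 3} (hj : h ≠ j) :
    E c h j 0 + E c h j 1 + E c h j 2 = n := by
  have : ∑ i, E c h j i = n := by
    unfold E
    rw [Finset.sum_comm]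
    rw [Finset.sum_congr rfl (fun a _ => ind_sum c (v := inl h) (w := inr (j, a)) (by simpa using hj))]
    simp
  simpa [Fin.sum_univ_three] using this

lemma cnt_hub {n : ℕ} (c : Sym2 (Vx n) → Fin 3) (h i : Fin 3) :
    cnt c (inl h) i = E c h 0 i + E c h 1 i + E c h 2 i := by
  unfold cnt E
  rw [Fintype.sum_sum_type, Fintype.sum_prod_type, Fin.sum_univ_three (f := fun j => ∑ a : Fin n, ind c (inl h) (inr (j, a)) i)]
  rw [Finset.sum_eq_zero (fun k _ => ind_not c (adj_ll h k) i)]
  simp

lemma cnt_cl {n : ℕ} (c : Sym2 (Vx n) → Fin 3) (j : Fin 3) (a : Fin n) (i : Fin 3) :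
    cnt c (inr (j, a)) i = ∑ h, ind c (inl h) (inr (j, a)) i +
      ∑ b : Fin n, ind c (inr (j, a)) (inr (j, b)) i := by
  unfold cnt
  rw [Fintype.sum_sum_type, Fintype.sum_prod_type]
  congr 1
  · exact Finset.sum_congr rfl (fun h _ => ind_symm c _ _ i)
  · rw [Finset.sum_eq_single j]
    · intro k _ hk
      exact Finset.sum_eq_zero (fun b _ => ind_not c (by simp [Ne.symm hk]) i)
    · simp

lemma cnt_cl_total {n : ℕ} (c : Sym2 (Vx n) → Fin 3) (j : Fin 3) (a : Fin n) :
    cnt c (inr (j, a)) 0 + cnt c (inr (j, a)) 1 + cnt c (inr (j, a)) 2 = n + 1 := by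
  have h1 : ∑ i, cnt c (inr (j, a)) i = n + 1 := by
    simp_rw [cnt_cl]
    rw [Finset.sum_add_distrib, Finset.sum_comm, Finset.sum_comm (s := (univ : Finset (Fin 3)))
      (t := (univ : Finset (Fin n)))]
    have e1 : ∀ h : Fin 3, ∑ i, ind c (inl h) (inr (j, a)) i = if h = j then 0 else 1 := by
      intro h
      split_ifs with hh
      · exact Finset.sum_eq_zero (fun i _ => ind_not c (by simp [hh]) i)
      · exact ind_sum c (by simpa using hh)
    have e2 : ∀ b : Fin n, ∑ i, ind c (inr (j, a)) (inr (j, b)) i = if b = a then 0 else 1 := by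
      intro b
      split_ifs with hh
      · exact Finset.sum_eq_zero (fun i _ => ind_not c (by simp [hh]) i)
      · exact ind_sum c (by simpa using Ne.symm hh)
    simp_rw [e1, e2]
    have e3 : ∑ h : Fin 3, (if h = j then 0 else 1) = 2 := two_others j
    have e4 : ∑ b : Fin n, (if b = a then 0 else 1) + 1 = n := by
      have : ∑ b : Fin n, ((if b = a then 0 else 1) + (if b = a then 1 else 0)) = n := by
        rw [Finset.sum_congr rfl (g := fun _ => 1) (fun b _ => by split_ifs <;> rfl)]
        simp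
      rw [Finset.sum_add_distrib] at this
      simpa using this
    omega
  simpa [Fin.sum_univ_three] using h1

lemma clique_par {n : ℕ} (hn : Even n) (c : Sym2 (Vx n) → Fin 3) (j i : Fin 3)
    (h : ∀ a, Odd (cnt c (inr (j, a)) i)) : Even (E c 0 j i + E c 1 j i + E c 2 j i) := by
  have h1 : Even (∑ a : Fin n, cnt c (inr (j, a)) i) := by
    rw [← ZMod.natCast_eq_zero_iff_even]
    push_cast
    rw [Finset.sum_congr rfl (g := fun _ => (1 : ZMod 2))
      (fun a _ => (ZMod.natCast_eq_one_iff_odd).mpr (h a))]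
    simpa using (ZMod.natCast_eq_zero_iff_even).mpr hn
  simp_rw [cnt_cl] at h1
  rw [Finset.sum_add_distrib, Finset.sum_comm] at h1
  have h2 := even_double (fun a b : Fin n => ind c (inr (j, a)) (inr (j, b)) i)
    (fun a b => ind_symm c _ _ i) (fun a => ind_not c (by simp) i)
  rw [Fin.sum_univ_three] at h1
  have h3 := (Nat.even_add.mp h1).mpr h2
  exact h3

theorem no_colouring {n : ℕ} (hn : Even n) (hn2 : 2 ≤ n) (c : Sym2 (Vx n) → Fin 3)
    (hc : ∀ v i, cnt c v i = 0 ∨ Odd (cnt c v i)) : False := by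
  -- each hub misses exactly one colour
  have hub : ∀ h : Fin 3, ∃ m : Fin 3, cnt c (inl h) m = 0 ∧ ∀ i, i ≠ m → Odd (cnt c (inl h) i) := by
    intro h
    have htot : cnt c (inl h) 0 + cnt c (inl h) 1 + cnt c (inl h) 2 = 2 * n := by
      rw [cnt_hub, cnt_hub, cnt_hub]
      have s0 := E_self c h 0
      have s1 := E_self c h 1
      have s2 := E_self c h 2
      have t := fun j (hj : h ≠ j) => E_sum c hj
      fin_cases h
      · have := t 1 (by decide); have := t 2 (by decide); simp only [Fin.zero_eta] at *; omega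
      · have := t 0 (by decide); have := t 2 (by decide); simp only [Fin.mk_one] at *; omega
      · have := t 0 (by decide); have := t 1 (by decide); simp only [Fin.reduceFinMk] at *; omega
    have a0 := hc (inl h) 0
    have a1 := hc (inl h) 1
    have a2 := hc (inl h) 2
    rw [Nat.odd_iff] at a0 a1 a2
    by_cases z0 : cnt c (inl h) 0 = 0
    · refine ⟨0, z0, fun i hi => ?_⟩
      rw [Nat.odd_iff]
      fin_cases i
      · exact absurd rfl hi
      · simp only [Fin.mk_one]; omega
      · simp only [Fin.reduceFinMk]; omega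
    by_cases z1 : cnt c (inl h) 1 = 0
    · refine ⟨1, z1, fun i hi => ?_⟩
      rw [Nat.odd_iff]
      fin_cases i
      · simp only [Fin.zero_eta]; omega
      · exact absurd rfl hi
      · simp only [Fin.reduceFinMk]; omega
    · refine ⟨2, by omega, fun i hi => ?_⟩
      rw [Nat.odd_iff]
      fin_cases i
      · simp only [Fin.zero_eta]; omega
      · simp only [Fin.mk_one]; omega
      · exact absurd rfl hi
  choose m hm0 hm1 using hub
  -- each clique has a colour seen by all its vertices and by both its hubs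
  have cl : ∀ j : Fin 3, ∃ g : Fin 3, (∀ h, h ≠ j → g ≠ m h) ∧ ∀ a, Odd (cnt c (inr (j, a)) g) := by
    intro j
    by_cases hall : ∀ a i, cnt c (inr (j, a)) i ≠ 0
    · obtain ⟨g, hg⟩ := free_colour j m
      exact ⟨g, hg, fun a => (hc _ _).resolve_left (hall a g)⟩
    · push Not at hall
      obtain ⟨a, i, hai⟩ := hall
      have htot := cnt_cl_total c j a
      have a0 := hc (inr (j, a)) 0
      have a1 := hc (inr (j, a)) 1
      have a2 := hc (inr (j, a)) 2
      rw [Nat.odd_iff] at a0 a1 a2
      rw [Nat.even_iff] at hn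
      have mono : ∃ g : Fin 3, ∀ i, i ≠ g → cnt c (inr (j, a)) i = 0 := by
        by_cases z0 : cnt c (inr (j, a)) 0 = 0
        · by_cases z1 : cnt c (inr (j, a)) 1 = 0
          · refine ⟨2, fun i hi => ?_⟩
            fin_cases i
            · exact z0
            · exact z1
            · exact absurd rfl hi
          · refine ⟨1, fun i hi => ?_⟩
            fin_cases i
            · exact z0
            · exact absurd rfl hi
            · simp only [Fin.reduceFinMk]; omega
        · refine ⟨0, fun i' hi => ?_⟩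
          fin_cases i <;> fin_cases i' <;>
            simp only [Fin.zero_eta, Fin.mk_one, Fin.reduceFinMk] at * <;>
            first | exact absurd rfl hi | omega
      obtain ⟨g, hg⟩ := mono
      have col : ∀ w, (G n).Adj (inr (j, a)) w → c s(inr (j, a), w) = g := by
        intro w hw
        by_contra hne
        exact cnt_pos c hw (hg _ hne)
      refine ⟨g, fun h hh hgm => ?_, fun b => ?_⟩
      · have hadj : (G n).Adj (inr (j, a)) (inl h) := by simpa using hh
        have h1 := cnt_pos c hadj.symm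
        rw [Sym2.eq_swap, col _ hadj, hgm] at h1
        exact h1 (hm0 h)
      · refine (hc _ _).resolve_left ?_
        by_cases hb : a = b
        · subst hb
          obtain ⟨h, hh⟩ := other j
          have hadj : (G n).Adj (inr (j, a)) (inl h) := by simpa using hh
          have h1 := cnt_pos c hadj
          rwa [col _ hadj] at h1
        · have hadj : (G n).Adj (inr (j, a)) (inr (j, b)) := by simpa using hb
          have h1 := cnt_pos c hadj.symm
          rwa [Sym2.eq_swap, col _ hadj] at h1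
  choose g hg0 hg1 using cl
  -- parity of the number of edges of a colour between a hub and a clique does not depend on it
  have indep : ∀ h j : Fin 3, h ≠ j → ∀ i i' : Fin 3, i ≠ m h → i' ≠ m h →
      E c h j i % 2 = E c h j i' % 2 := by
    intro h j hj i i' hi hi'
    have h1 := E_sum c hj
    have h2 : E c h j (m h) = 0 := by
      have := hm0 h
      rw [cnt_hub] at this
      fin_cases j <;> simp only [Fin.zero_eta, Fin.mk_one, Fin.reduceFinMk] at * <;> omega
    rw [Nat.even_iff] at hn
    generalize m h = μ at *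
    fin_cases μ <;> fin_cases i <;> fin_cases i' <;>
      simp only [Fin.zero_eta, Fin.mk_one, Fin.reduceFinMk] at * <;>
      first | rfl | exact absurd rfl hi | exact absurd rfl hi' | omega
  have p0 := clique_par hn c 0 (g 0) (hg1 0)
  have p1 := clique_par hn c 1 (g 1) (hg1 1)
  have p2 := clique_par hn c 2 (g 2) (hg1 2)
  have q0 := hm1 0 (g 1) (hg0 1 0 (by decide))
  have q1 := hm1 1 (g 2) (hg0 2 1 (by decide))
  have q2 := hm1 2 (g 0) (hg0 0 2 (by decide))
  rw [cnt_hub, E_self, Nat.odd_iff] at q0 q1 q2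
  rw [E_self, Nat.even_iff] at p0 p1 p2
  have r0 := indep 0 2 (by decide) (g 1) (g 2) (hg0 1 0 (by decide)) (hg0 2 0 (by decide))
  have r1 := indep 1 0 (by decide) (g 2) (g 0) (hg0 2 1 (by decide)) (hg0 0 1 (by decide))
  have r2 := indep 2 1 (by decide) (g 0) (g 1) (hg0 0 2 (by decide)) (hg0 1 2 (by decide))
  omega

end Pool.Agent.H956Z.OddCol
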